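import Mathlib

set_option autoImplicit false
open Classical

namespace Pool.Agent.Q230.TG

open Finset

/-- The side `b` of a finite set. -/
def sd {V : Type} (s : V → Bool) (b : Bool) (e : Finset V) : Finset V :=
  e.filter (fun v => s v = b)

/-- The sum of the labels between the two sides. -/
def tot {V : Type} (s : V → Bool) (c : V → V → ZMod 2) (b : Bool) (e : Finset V) : ZMod 2 :=
  ∑ x ∈ sd s b e, ∑ y ∈ sd s (!b) e, c x y

/-- Hyperedges given by a labelling. -/
def InH {V : Type} (s : V → Bool) (c : V → V → ZMod 2) (e : Finset V) : Prop :=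
  (sd s false e).card = 2 ∧ (sd s true e).card = 2 ∧ tot s c false e = 1

theorem tot_not {V : Type} (s : V → Bool) (c : V → V → ZMod 2) (hc : ∀ x y, c x y = c y x)
    (b : Bool) (e : Finset V) : tot s c (!b) e = tot s c b e := by
  unfold tot
  rw [Bool.not_not, Finset.sum_comm]
  exact Finset.sum_congr rfl (fun x _ => Finset.sum_congr rfl (fun y _ => hc y x))

theorem inH_iff {V : Type} (s : V → Bool) (c : V → V → ZMod 2) (hc : ∀ x y, c x y = c y x)
    (b : Bool) (e : Finset V) :
    InH s c e ↔ ((sd s b e).card = 2 ∧ (sd s (!b) e).card = 2 ∧ tot s c b e = 1) := by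
  cases b
  · exact Iff.rfl
  · have h := tot_not s c hc false e
    simp only [Bool.not_false] at h
    unfold InH
    rw [h]
    simp only [Bool.not_true]
    tauto

theorem card_sd {V : Type} (s : V → Bool) (b : Bool) (e : Finset V) :
    (sd s b e).card + (sd s (!b) e).card = e.card := by
  have h := Finset.card_filter_add_card_filter_not (s := e) (fun v => s v = b)
  unfold sd
  rw [← h]
  congr 2
  apply Finset.filter_congr
  intro x _
  cases s x <;> cases b <;> simp

theorem two_mul_z (a : ZMod 2) : a + a = 0 := by
  revert a; decide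

theorem z_cases (a : ZMod 2) : a = 0 ∨ a = 1 := by
  revert a; decide

/-- counting the members of size four inside a set of size five -/
theorem card_four {V : Type} (H : Finset (Finset V)) (h4 : ∀ e ∈ H, e.card = 4)
    (S : Finset V) (hS : S.card = 5) :
    (((H.filter (fun e => e ⊆ S)).card : ℕ) : ZMod 2) =
      ∑ v ∈ S, if S.erase v ∈ H then (1 : ZMod 2) else 0 := by
  rw [← Finset.sum_filter, Finset.sum_const, nsmul_eq_mul, mul_one]
  congr 1
  symm
  apply Finset.card_bij (fun v _ => S.erase v)
  · intro v hv
    rw [Finset.mem_filter] at hv ⊢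
    exact ⟨hv.2, Finset.erase_subset _ _⟩
  · intro v hv w hw h
    rw [Finset.mem_filter] at hv hw
    by_contra hne
    have : w ∈ S.erase v := Finset.mem_erase.2 ⟨fun e => hne e.symm, hw.1⟩
    rw [h] at this
    exact (Finset.mem_erase.1 this).1 rfl
  · intro e he
    rw [Finset.mem_filter] at he
    have hc : (S \ e).card = 1 := by
      rw [Finset.card_sdiff_of_subset he.2, hS, h4 e he.1]
    obtain ⟨v, hv⟩ := Finset.card_eq_one.1 hc
    have hvm : v ∈ S \ e := by rw [hv]; exact Finset.mem_singleton_self v
    have hee : S.erase v = e := by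
      ext x
      rw [Finset.mem_erase]
      constructor
      · rintro ⟨h1, h2⟩
        by_contra h3
        have : x ∈ S \ e := Finset.mem_sdiff.2 ⟨h2, h3⟩
        rw [hv, Finset.mem_singleton] at this
        exact h1 this
      · intro hx
        refine ⟨fun h => ?_, he.2 hx⟩
        rw [Finset.mem_sdiff] at hvm
        rw [h] at hx
        exact hvm.2 hx
    refine ⟨v, ?_, hee⟩
    rw [Finset.mem_filter]
    refine ⟨(Finset.mem_sdiff.1 hvm).1, ?_⟩
    rw [hee]
    exact he.1

theorem sd_erase_same {V : Type} (s : V → Bool) (S : Finset V) (v : V) (b : Bool) :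
    sd s b (S.erase v) = (sd s b S).erase v := by
  unfold sd
  rw [Finset.filter_erase]

theorem sd_erase_other {V : Type} (s : V → Bool) (S : Finset V) (v : V) (b : Bool)
    (hv : s v ≠ b) : sd s b (S.erase v) = sd s b S := by
  rw [sd_erase_same]
  apply Finset.erase_eq_of_notMem
  unfold sd
  rw [Finset.mem_filter]
  tauto

/-- a labelled structure is a three-graph -/
theorem tg_four {V : Type} [Fintype V] (s : V → Bool) (c : V → V → ZMod 2)
    (hc : ∀ x y, c x y = c y x) (e : Finset V)
    (he : InH s c e) : e.card = 4 ∧ ∀ v ∈ e, (e.filter (fun w => s v = s w)).card = 2 := by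
  have h := card_sd s false e
  simp only [Bool.not_false] at h
  refine ⟨by rw [← h, he.1, he.2.1], ?_⟩
  intro v _
  have h2 : e.filter (fun w => s v = s w) = sd s (s v) e := by
    unfold sd
    apply Finset.filter_congr
    intro x _
    exact eq_comm
  rw [h2]
  cases s v
  · exact he.1
  · exact he.2.1

theorem tg_five {V : Type} [Fintype V] (s : V → Bool) (c : V → V → ZMod 2)
    (hc : ∀ x y, c x y = c y x) (H : Finset (Finset V)) (hH : ∀ e, e ∈ H ↔ InH s c e)
    (S : Finset V) (hS : S.card = 5)
    (h3 : ∀ v ∈ S, (S.filter (fun w => s v = s w)).card ≤ 3) :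
    Even (H.filter (fun e => e ⊆ S)).card := by
  have h4 : ∀ e ∈ H, e.card = 4 := fun e he => (tg_four s c hc e ((hH e).1 he)).1
  have hle : ∀ b : Bool, (sd s b S).card ≤ 3 := by
    intro b
    rcases (sd s b S).eq_empty_or_nonempty with h | ⟨v, hv⟩
    · rw [h]; simp
    · have hv' := hv
      unfold sd at hv'
      rw [Finset.mem_filter] at hv'
      have := h3 v hv'.1
      refine le_trans (le_of_eq ?_) this
      congr 1
      unfold sd
      apply Finset.filter_congr
      intro x _
      rw [hv'.2]
      exact eq_comm
  obtain ⟨b, hb3, hb2⟩ : ∃ b : Bool, (sd s b S).card = 3 ∧ (sd s (!b) S).card = 2 := by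
    have h := card_sd s false S
    have h0 := hle false
    have h1 := hle true
    simp only [Bool.not_false] at h
    by_cases h5 : (sd s false S).card = 3
    · exact ⟨false, h5, by simp only [Bool.not_false]; omega⟩
    · exact ⟨true, by omega, by simp only [Bool.not_true]; omega⟩
  have key := card_four H h4 S hS
  have : (((H.filter (fun e => e ⊆ S)).card : ℕ) : ZMod 2) = 0 := by
    rw [key]
    have hsplit : ∑ v ∈ S, (if S.erase v ∈ H then (1 : ZMod 2) else 0) =
        ∑ v ∈ sd s b S, (if S.erase v ∈ H then (1 : ZMod 2) else 0) := by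
      symm
      apply Finset.sum_subset
      · unfold sd; exact Finset.filter_subset _ _
      · intro v hv hv2
        rw [if_neg]
        intro hm
        have hsv : s v ≠ b := by
          intro h
          exact hv2 (by unfold sd; rw [Finset.mem_filter]; exact ⟨hv, h⟩)
        have := ((inH_iff s c hc b _).1 ((hH _).1 hm)).1
        rw [sd_erase_other s S v b hsv, hb3] at this
        omega
    rw [hsplit]
    have hval : ∀ v ∈ sd s b S, (if S.erase v ∈ H then (1 : ZMod 2) else 0) =
        (∑ x ∈ sd s b S, ∑ y ∈ sd s (!b) S, c x y) - ∑ y ∈ sd s (!b) S, c v y := by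
      intro v hv
      have hsv : s v = b := by unfold sd at hv; exact (Finset.mem_filter.1 hv).2
      have h1 : sd s (!b) (S.erase v) = sd s (!b) S := by
        apply sd_erase_other
        rw [hsv]
        cases b <;> simp
      have h2 : tot s c b (S.erase v) =
          (∑ x ∈ sd s b S, ∑ y ∈ sd s (!b) S, c x y) - ∑ y ∈ sd s (!b) S, c v y := by
        unfold tot
        rw [h1, sd_erase_same, Finset.sum_erase_eq_sub hv]
      rw [← h2]
      have hiff : S.erase v ∈ H ↔ tot s c b (S.erase v) = 1 := by
        rw [hH, inH_iff s c hc b, h1, hb2, sd_erase_same, Finset.card_erase_of_mem hv, hb3]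
        tauto
      rcases z_cases (tot s c b (S.erase v)) with h0 | h0
      · rw [if_neg, h0]
        rw [hiff, h0]
        decide
      · rw [if_pos (hiff.2 h0), h0]
    rw [Finset.sum_congr rfl hval, Finset.sum_sub_distrib, Finset.sum_const, hb3]
    generalize (∑ x ∈ sd s b S, ∑ y ∈ sd s (!b) S, c x y) = t
    revert t
    decide
  exact (ZMod.natCast_eq_zero_iff_even).1 this

/-- maps of labelled structures -/
theorem map_iff {V W : Type} (s : V → Bool) (c : V → V → ZMod 2)
    (s' : W → Bool) (c' : W → W → ZMod 2) (hc : ∀ x y, c x y = c y x)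
    (hc' : ∀ x y, c' x y = c' y x) (f : V ↪ W) (w : Bool) (a : V → ZMod 2)
    (hs : ∀ x, s' (f x) = xor w (s x))
    (hcc : ∀ x y, s x ≠ s y → c' (f x) (f y) = c x y + a x + a y) (e : Finset V) :
    InH s c e ↔ InH s' c' (e.map f) := by
  have hsd : ∀ b, sd s' (xor w b) (e.map f) = (sd s b e).map f := by
    intro b
    unfold sd
    rw [Finset.filter_map]
    congr 1
    apply Finset.filter_congr
    intro x _
    simp only [Function.comp_apply, hs]
    constructor
    · intro h; exact (Bool.xor_right_inj).1 h
    · intro h; rw [h]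
  have hnot : (!(xor w false)) = xor w true := by cases w <;> rfl
  rw [inH_iff s c hc false, inH_iff s' c' hc' (xor w false)]
  unfold tot
  rw [hnot, hsd, hsd, Finset.card_map, Finset.card_map, Bool.not_false]
  constructor
  · rintro ⟨h1, h2, h3⟩
    refine ⟨h1, h2, ?_⟩
    rw [Finset.sum_map, ← h3]
    have : ∀ x ∈ sd s false e, ∑ y ∈ (sd s true e).map f, c' (f x) y =
        (∑ y ∈ sd s true e, c x y) + (∑ y ∈ sd s true e, a y) := by
      intro x hx
      rw [Finset.sum_map]
      have : ∀ y ∈ sd s true e, c' (f x) (f y) = (c x y + a y) + a x := by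
        intro y hy
        unfold sd at hx hy
        rw [Finset.mem_filter] at hx hy
        rw [hcc x y (by rw [hx.2, hy.2]; decide)]
        ring
      rw [Finset.sum_congr rfl this, Finset.sum_add_distrib, Finset.sum_add_distrib,
        Finset.sum_const, h2]
      have := two_mul_z (a x)
      rw [two_smul, this, add_zero]
    rw [Finset.sum_congr rfl this, Finset.sum_add_distrib, Finset.sum_const, h1, two_smul,
      two_mul_z, add_zero]
  · rintro ⟨h1, h2, h3⟩
    refine ⟨h1, h2, ?_⟩
    rw [Finset.sum_map] at h3
    rw [← h3]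
    symm
    have : ∀ x ∈ sd s false e, ∑ y ∈ (sd s true e).map f, c' (f x) y =
        (∑ y ∈ sd s true e, c x y) + (∑ y ∈ sd s true e, a y) := by
      intro x hx
      rw [Finset.sum_map]
      have : ∀ y ∈ sd s true e, c' (f x) (f y) = (c x y + a y) + a x := by
        intro y hy
        unfold sd at hx hy
        rw [Finset.mem_filter] at hx hy
        rw [hcc x y (by rw [hx.2, hy.2]; decide)]
        ring
      rw [Finset.sum_congr rfl this, Finset.sum_add_distrib, Finset.sum_add_distrib,
        Finset.sum_const, h2]
      have := two_mul_z (a x)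
      rw [two_smul, this, add_zero]
    rw [Finset.sum_congr rfl this, Finset.sum_add_distrib, Finset.sum_const, h1, two_smul,
      two_mul_z, add_zero]

end Pool.Agent.Q230.TG
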