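import Pool.Agent.Q230.TG.Rep

set_option autoImplicit false
open Classical

namespace Pool.Agent.Q230.TG

open Finset

/-- The universal labelled structure over `n` indices. -/
abbrev BT (n : ℕ) : Type := Bool × Fin n × (Fin n → ZMod 2)

/-- Sides. -/
def sB (n : ℕ) (x : BT n) : Bool := x.1

/-- Labels. -/
def cB (n : ℕ) (x y : BT n) : ZMod 2 := x.2.2 y.2.1 + y.2.2 x.2.1

theorem cB_comm (n : ℕ) (x y : BT n) : cB n x y = cB n y x := add_comm _ _

/-- third coordinate of the embedded vertex -/
def chi {n : ℕ} (s : Fin n → Bool) (c : Fin n → Fin n → ZMod 2) (v : Fin n) : Fin n → ZMod 2 :=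
  fun u => if s v = false then c v u else 0

/-- The embedded copy. -/
def emb {n : ℕ} (s : Fin n → Bool) (c : Fin n → Fin n → ZMod 2) (v : Fin n) : BT n :=
  (s v, v, chi s c v)

theorem chi_add {n : ℕ} (s : Fin n → Bool) (c : Fin n → Fin n → ZMod 2)
    (hc : ∀ x y, c x y = c y x) (u v : Fin n) (h : s u ≠ s v) :
    chi s c u v + chi s c v u = c u v := by
  unfold chi
  cases hu : s u <;> cases hv : s v
  · rw [hu, hv] at h; exact (h rfl).elim
  · simp
  · simp [hc v u]
  · rw [hu, hv] at h; exact (h rfl).elim

theorem emb_inj {n : ℕ} (s : Fin n → Bool) (c : Fin n → Fin n → ZMod 2) :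
    Function.Injective (emb s c) := by
  intro x y h
  exact congrArg (fun t : BT n => t.2.1) h

theorem swap_bit {n : ℕ} (s : Fin n → Bool) (S : Finset (Fin n)) (p : Fin n → Fin n)
    (hr : ∀ x ∈ S, ∀ y ∈ S, s x = s y ↔ s (p x) = s (p y)) :
    ∃ w : Bool, ∀ x ∈ S, s (p x) = xor w (s x) := by
  rcases S.eq_empty_or_nonempty with h | ⟨x0, hx0⟩
  · exact ⟨false, fun x hx => by rw [h] at hx; simp at hx⟩
  · refine ⟨xor (s (p x0)) (s x0), ?_⟩
    intro x hx
    have := hr x hx x0 hx0
    revert this
    generalize s x = A
    generalize s x0 = B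
    generalize s (p x) = C
    generalize s (p x0) = D
    revert A B C D
    decide

theorem potential {n : ℕ} (s : Fin n → Bool) (c : Fin n → Fin n → ZMod 2)
    (hc : ∀ x y, c x y = c y x) (S : Finset (Fin n)) (p : Fin n → Fin n)
    (hp : Set.InjOn p (S : Set (Fin n))) (w : Bool) (hw : ∀ x ∈ S, s (p x) = xor w (s x))
    (hH : ∀ e ⊆ S, InH s c e ↔ InH s c (e.image p)) :
    ∃ a : Fin n → ZMod 2, ∀ x ∈ S, ∀ y ∈ S, s x ≠ s y → c (p x) (p y) = c x y + a x + a y := by
  -- the four-term relation
  have hnot : (!(xor w false)) = xor w true := by cases w <;> rfl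
  have hfour : ∀ x ∈ S, ∀ x' ∈ S, ∀ y ∈ S, ∀ y' ∈ S, s x = false → s x' = false →
      s y = true → s y' = true → x ≠ x' → y ≠ y' →
      c x y + c x y' + (c x' y + c x' y') =
        c (p x) (p y) + c (p x) (p y') + (c (p x') (p y) + c (p x') (p y')) := by
    intro x hx x' hx' y hy y' hy' sx sx' sy sy' nx ny
    have hsub : ({x, x', y, y'} : Finset (Fin n)) ⊆ S := by
      intro t ht
      simp only [Finset.mem_insert, Finset.mem_singleton] at ht
      rcases ht with h | h | h | h <;> rw [h] <;> assumption
    have hiff := hH _ hsub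
    have s0 : sd s false ({x, x', y, y'} : Finset (Fin n)) = {x, x'} := by
      unfold sd
      ext t
      simp only [Finset.mem_filter, Finset.mem_insert, Finset.mem_singleton]
      constructor
      · rintro ⟨h | h | h | h, h2⟩
        · exact Or.inl h
        · exact Or.inr h
        · rw [h, sy] at h2; cases h2
        · rw [h, sy'] at h2; cases h2
      · rintro (h | h)
        · exact ⟨Or.inl h, by rw [h]; exact sx⟩
        · exact ⟨Or.inr (Or.inl h), by rw [h]; exact sx'⟩
    have s1 : sd s true ({x, x', y, y'} : Finset (Fin n)) = {y, y'} := by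
      unfold sd
      ext t
      simp only [Finset.mem_filter, Finset.mem_insert, Finset.mem_singleton]
      constructor
      · rintro ⟨h | h | h | h, h2⟩
        · rw [h, sx] at h2; cases h2
        · rw [h, sx'] at h2; cases h2
        · exact Or.inl h
        · exact Or.inr h
      · rintro (h | h)
        · exact ⟨Or.inr (Or.inr (Or.inl h)), by rw [h]; exact sy⟩
        · exact ⟨Or.inr (Or.inr (Or.inr h)), by rw [h]; exact sy'⟩
    have npx : p x ≠ p x' := fun h => nx (hp hx hx' h)
    have npy : p y ≠ p y' := fun h => ny (hp hy hy' h)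
    have him : ({x, x', y, y'} : Finset (Fin n)).image p = {p x, p x', p y, p y'} := by
      simp only [Finset.image_insert, Finset.image_singleton]
    have spx : s (p x) = xor w false := by rw [hw x hx, sx]
    have spx' : s (p x') = xor w false := by rw [hw x' hx', sx']
    have spy : s (p y) = xor w true := by rw [hw y hy, sy]
    have spy' : s (p y') = xor w true := by rw [hw y' hy', sy']
    have hft : xor w false ≠ xor w true := by cases w <;> decide
    have t0 : sd s (xor w false) ({p x, p x', p y, p y'} : Finset (Fin n)) = {p x, p x'} := by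
      unfold sd
      ext t
      simp only [Finset.mem_filter, Finset.mem_insert, Finset.mem_singleton]
      constructor
      · rintro ⟨h | h | h | h, h2⟩
        · exact Or.inl h
        · exact Or.inr h
        · rw [h, spy] at h2; exact (hft h2.symm).elim
        · rw [h, spy'] at h2; exact (hft h2.symm).elim
      · rintro (h | h)
        · exact ⟨Or.inl h, by rw [h]; exact spx⟩
        · exact ⟨Or.inr (Or.inl h), by rw [h]; exact spx'⟩
    have t1 : sd s (xor w true) ({p x, p x', p y, p y'} : Finset (Fin n)) = {p y, p y'} := by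
      unfold sd
      ext t
      simp only [Finset.mem_filter, Finset.mem_insert, Finset.mem_singleton]
      constructor
      · rintro ⟨h | h | h | h, h2⟩
        · rw [h, spx] at h2; exact (hft h2).elim
        · rw [h, spx'] at h2; exact (hft h2).elim
        · exact Or.inl h
        · exact Or.inr h
      · rintro (h | h)
        · exact ⟨Or.inr (Or.inr (Or.inl h)), by rw [h]; exact spy⟩
        · exact ⟨Or.inr (Or.inr (Or.inr h)), by rw [h]; exact spy'⟩
    rw [him, inH_iff s c hc false, inH_iff s c hc (xor w false)] at hiff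
    unfold tot at hiff
    rw [hnot, t0, t1, Bool.not_false, s0, s1, Finset.card_pair nx, Finset.card_pair ny,
      Finset.card_pair npx, Finset.card_pair npy, Finset.sum_pair nx, Finset.sum_pair ny,
      Finset.sum_pair ny, Finset.sum_pair npx, Finset.sum_pair npy, Finset.sum_pair npy] at hiff
    simp only [true_and] at hiff
    revert hiff
    generalize c x y + c x y' + (c x' y + c x' y') = A
    generalize c (p x) (p y) + c (p x) (p y') + (c (p x') (p y) + c (p x') (p y')) = B
    revert A B
    decide
  by_cases hb : (∃ x0 ∈ S, s x0 = false) ∧ (∃ y0 ∈ S, s y0 = true)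
  · obtain ⟨⟨x0, hx0, sx0⟩, ⟨y0, hy0, sy0⟩⟩ := hb
    have hdd : ∀ x ∈ S, ∀ y ∈ S, s x = false → s y = true →
        c (p x) (p y) = c x y + (c (p x) (p y0) + c x y0) +
          ((c (p x0) (p y) + c x0 y) + (c (p x0) (p y0) + c x0 y0)) := by
      intro x hx y hy sx sy
      by_cases nx : x0 = x
      · subst nx
        generalize c (p x0) (p y) = A
        generalize c (p x0) (p y0) = B
        generalize c x0 y = C
        generalize c x0 y0 = D
        revert A B C D; decide
      by_cases ny : y0 = y
      · subst ny
        generalize c (p x) (p y0) = A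
        generalize c (p x0) (p y0) = B
        generalize c x y0 = C
        generalize c x0 y0 = D
        revert A B C D; decide
      have := hfour x0 hx0 x hx y0 hy0 y hy sx0 sx sy0 sy nx ny
      revert this
      generalize c (p x) (p y) = A
      generalize c (p x0) (p y) = A1
      generalize c (p x) (p y0) = A2
      generalize c (p x0) (p y0) = A3
      generalize c x y = B
      generalize c x0 y = B1
      generalize c x y0 = B2
      generalize c x0 y0 = B3
      revert A A1 A2 A3 B B1 B2 B3
      decide
    refine ⟨fun v => if s v = false then c (p v) (p y0) + c v y0 else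
      (c (p x0) (p v) + c x0 v) + (c (p x0) (p y0) + c x0 y0), ?_⟩
    intro x hx y hy hxy
    cases sx : s x <;> cases sy : s y
    · rw [sx, sy] at hxy; exact (hxy rfl).elim
    · have := hdd x hx y hy sx sy
      simp only [sx, sy, if_true]
      rw [this]
      simp
    · have := hdd y hy x hx sy sx
      simp only [sx, sy, if_true]
      rw [hc (p x) (p y), hc x y, this]
      simp only [Bool.true_eq_false, if_false]
      ring
    · rw [sx, sy] at hxy; exact (hxy rfl).elim
  · refine ⟨fun _ => 0, ?_⟩
    intro x hx y hy hxy
    exfalso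
    apply hb
    cases sx : s x <;> cases sy : s y
    · rw [sx, sy] at hxy; exact (hxy rfl).elim
    · exact ⟨⟨x, hx, sx⟩, ⟨y, hy, sy⟩⟩
    · exact ⟨⟨y, hy, sy⟩, ⟨x, hx, sx⟩⟩
    · rw [sx, sy] at hxy; exact (hxy rfl).elim

theorem perm_ext {n : ℕ} (D : Finset (Fin n)) (p : Fin n → Fin n)
    (hp : Set.InjOn p (D : Set (Fin n))) : ∃ k : Equiv.Perm (Fin n), ∀ x ∈ D, k x = p x := by
  obtain ⟨g, hg⟩ := Finset.exists_equiv_extend_of_card_eq (t := (Finset.univ : Finset (Fin n)))
    (by simp) (s := D) (f := p) (Finset.subset_univ _) hp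
  refine ⟨g.trans (Equiv.subtypeUnivEquiv (fun x => Finset.mem_univ x)), ?_⟩
  intro x hx
  exact hg x hx

/-- the automorphism -/
def theta {n : ℕ} (w : Bool) (k : Bool → Equiv.Perm (Fin n))
    (g : Bool → Fin n → Fin n → ZMod 2) (x : BT n) : BT n :=
  (xor w x.1, k x.1 x.2.1,
    fun j => x.2.2 ((k (!x.1)).symm j) + g x.1 x.2.1 ((k (!x.1)).symm j))

theorem theta_inj {n : ℕ} (w : Bool) (k : Bool → Equiv.Perm (Fin n))
    (g : Bool → Fin n → Fin n → ZMod 2) : Function.Injective (theta w k g) := by
  rintro ⟨b, i, χ⟩ ⟨b', i', χ'⟩ h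
  unfold theta at h
  simp only [Prod.mk.injEq] at h
  obtain ⟨h1, h2, h3⟩ := h
  have hb : b = b' := (Bool.xor_right_inj).1 h1
  subst hb
  have hi : i = i' := (k b).injective h2
  subst hi
  have : χ = χ' := by
    funext j
    have := congrFun h3 (k (!b) j)
    simp only [Equiv.symm_apply_apply] at this
    exact add_right_cancel this
  rw [this]

theorem theta_c {n : ℕ} (w : Bool) (k : Bool → Equiv.Perm (Fin n))
    (g : Bool → Fin n → Fin n → ZMod 2) (A : Bool → Fin n → ZMod 2)
    (hg : ∀ i j, g false i j + g true j i = A false i + A true j) (x y : BT n)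
    (hxy : sB n x ≠ sB n y) :
    cB n (theta w k g x) (theta w k g y) = cB n x y + A x.1 x.2.1 + A y.1 y.2.1 := by
  obtain ⟨b, i, χ⟩ := x
  obtain ⟨b', j, ξ⟩ := y
  have hb' : b' = !b := by
    unfold sB at hxy
    simp only at hxy
    cases b <;> cases b' <;> simp_all
  subst hb'
  unfold theta cB
  simp only [Bool.not_not, Equiv.symm_apply_apply]
  cases b
  · have := hg i j
    simp only [Bool.not_false]
    have h2 : χ j + g false i j + (ξ i + g true j i) =
      χ j + ξ i + (g false i j + g true j i) := by ring
    rw [h2, this]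
    ring
  · have := hg j i
    simp only [Bool.not_true]
    have h2 : χ j + g true i j + (ξ i + g false j i) =
      χ j + ξ i + (g false j i + g true i j) := by ring
    rw [h2, this]
    ring

theorem extend {n : ℕ} (s : Fin n → Bool) (c : Fin n → Fin n → ZMod 2)
    (hc : ∀ x y, c x y = c y x) (S : Finset (Fin n)) (p : Fin n → Fin n)
    (hp : Set.InjOn p (S : Set (Fin n)))
    (hr : ∀ x ∈ S, ∀ y ∈ S, s x = s y ↔ s (p x) = s (p y))
    (hH : ∀ e ⊆ S, InH s c e ↔ InH s c (e.image p)) :
    ∃ (w : Bool) (θ : BT n → BT n) (P : BT n → ZMod 2), Function.Injective θ ∧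
      (∀ x, sB n (θ x) = xor w (sB n x)) ∧
      (∀ x y, sB n x ≠ sB n y → cB n (θ x) (θ y) = cB n x y + P x + P y) ∧
      ∀ x ∈ S, θ (emb s c x) = emb s c (p x) := by
  obtain ⟨w, hw⟩ := swap_bit s S p hr
  obtain ⟨a, ha⟩ := potential s c hc S p hp w hw hH
  have hk : ∀ b : Bool, ∃ k : Equiv.Perm (Fin n), ∀ x ∈ S, s x = b → k x = p x := by
    intro b
    obtain ⟨k, hk⟩ := perm_ext (S.filter (fun v => s v = b)) p
      (hp.mono (by intro x hx; simp only [Finset.coe_filter, Set.mem_setOf_eq] at hx; exact hx.1))
    exact ⟨k, fun x hx hb => hk x (Finset.mem_filter.2 ⟨hx, hb⟩)⟩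
  choose k hk using hk
  let A : Bool → Fin n → ZMod 2 := fun b i => if i ∈ S ∧ s i = b then a i else 0
  let g0 : Fin n → Fin n → ZMod 2 := fun i j =>
    if i ∈ S ∧ s i = false then chi s c (p i) (k true j) + chi s c i j
    else if j ∈ S ∧ s j = true then
      A false i + A true j + (chi s c (p j) (k false i) + chi s c j i)
    else 0
  let g : Bool → Fin n → Fin n → ZMod 2 := fun b i j =>
    if b = false then g0 i j else g0 j i + A false j + A true i
  have hg : ∀ i j, g false i j + g true j i = A false i + A true j := by
    intro i j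
    have h1 : g false i j = g0 i j := if_pos rfl
    have h2 : g true j i = g0 i j + A false i + A true j := if_neg (by decide)
    rw [h1, h2]
    have : g0 i j + (g0 i j + A false i + A true j) = (g0 i j + g0 i j) + (A false i + A true j) := by
      ring
    rw [this, two_mul_z, zero_add]
  refine ⟨w, theta w k g, fun x => A x.1 x.2.1, theta_inj w k g, fun _ => rfl, ?_, ?_⟩
  · intro x y hxy
    exact theta_c w k g A hg x y hxy
  · intro x hx
    have hkey : ∀ j, g (s x) x j = chi s c (p x) (k (!s x) j) + chi s c x j := by
      intro j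
      cases sx : s x
      · have h1 : g false x j = g0 x j := if_pos rfl
        rw [h1]
        exact if_pos ⟨hx, sx⟩
      · have h1 : g true x j = g0 j x + A false j + A true x := if_neg (by decide)
        rw [h1]
        simp only [Bool.not_true]
        by_cases hj : j ∈ S ∧ s j = false
        · have h2 : g0 j x = chi s c (p j) (k true x) + chi s c j x := if_pos hj
          have h3 : A false j = a j := if_pos hj
          have h4 : A true x = a x := if_pos ⟨hx, sx⟩
          rw [h2, h3, h4, hk true x hx sx, hk false j hj.1 hj.2]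
          have h5 := ha j hj.1 x hx (by rw [hj.2, sx]; decide)
          have h6 := chi_add s c hc (p j) (p x) (by
            rw [hw j hj.1, hw x hx, hj.2, sx]; cases w <;> decide)
          have h7 := chi_add s c hc j x (by rw [hj.2, sx]; decide)
          rw [← h6, ← h7] at h5
          revert h5
          generalize chi s c (p j) (p x) = B1
          generalize chi s c (p x) (p j) = B2
          generalize chi s c j x = B3
          generalize chi s c x j = B4
          generalize a j = B5
          generalize a x = B6
          revert B1 B2 B3 B4 B5 B6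
          decide
        · have h2 : g0 j x = A false j + A true x +
              (chi s c (p x) (k false j) + chi s c x j) := by
            have e1 : g0 j x = if x ∈ S ∧ s x = true then
              A false j + A true x + (chi s c (p x) (k false j) + chi s c x j) else 0 := if_neg hj
            rw [e1, if_pos ⟨hx, sx⟩]
          rw [h2]
          have h8 : A false j + A true x + (chi s c (p x) (k false j) + chi s c x j) +
              A false j + A true x = (A false j + A false j) + (A true x + A true x) +
              (chi s c (p x) (k false j) + chi s c x j) := by ring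
          rw [h8, two_mul_z, two_mul_z, add_zero, zero_add]
    unfold theta emb
    simp only [Prod.mk.injEq]
    refine ⟨(hw x hx).symm, hk (s x) x hx rfl, ?_⟩
    funext j
    rw [hkey, Equiv.apply_symm_apply]
    have : chi s c x ((k (!s x)).symm j) + (chi s c (p x) j + chi s c x ((k (!s x)).symm j)) =
      (chi s c x ((k (!s x)).symm j) + chi s c x ((k (!s x)).symm j)) + chi s c (p x) j := by ring
    rw [this, two_mul_z, zero_add]

end Pool.Agent.Q230.TG
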