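import Pool.Agent.Q230.TG.Ext

set_option autoImplicit false
open Classical

namespace Pool.Agent.Q230.TG

open Finset

theorem main (n : ℕ) (rA : Fin n → Fin n → Prop) (HA : Finset (Finset (Fin n)))
    (hA : Equivalence rA ∧ (∀ a b c, rA a b ∨ rA b c ∨ rA a c) ∧
        (∀ e ∈ HA, e.card = 4 ∧ ∀ v ∈ e, (e.filter (fun w => rA v w)).card = 2) ∧
        (∀ S : Finset (Fin n), S.card = 5 →
          (∀ v ∈ S, (S.filter (fun w => rA v w)).card ≤ 3) →
          Even (HA.filter (fun e => e ⊆ S)).card)) :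
      ∃ (m : ℕ) (rB : Fin m → Fin m → Prop) (HB : Finset (Finset (Fin m))),
        (Equivalence rB ∧ (∀ a b c, rB a b ∨ rB b c ∨ rB a c) ∧
          (∀ e ∈ HB, e.card = 4 ∧ ∀ v ∈ e, (e.filter (fun w => rB v w)).card = 2) ∧
          (∀ S : Finset (Fin m), S.card = 5 →
            (∀ v ∈ S, (S.filter (fun w => rB v w)).card ≤ 3) →
            Even (HB.filter (fun e => e ⊆ S)).card)) ∧
        ∃ f : Fin n ↪ Fin m,
          (∀ x y, rA x y ↔ rB (f x) (f y)) ∧
          (∀ e : Finset (Fin n), e ∈ HA ↔ e.map f ∈ HB) ∧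
          ∀ (S : Finset (Fin n)) (p : Fin n → Fin n),
            Set.InjOn p (S : Set (Fin n)) →
            (∀ x ∈ S, ∀ y ∈ S, rA x y ↔ rA (p x) (p y)) →
            (∀ e ⊆ S, e ∈ HA ↔ e.image p ∈ HA) →
            ∃ σ : Fin m ≃ Fin m,
              (∀ x y, rB x y ↔ rB (σ x) (σ y)) ∧
              (∀ e : Finset (Fin m), e ∈ HB ↔ e.map σ.toEmbedding ∈ HB) ∧
              ∀ x ∈ S, σ (f x) = f (p x) := by
  obtain ⟨h1, h2, h4, h5⟩ := hA
  obtain ⟨s, c, hs, hc, hHA⟩ := rep rA HA h1 h2 h4 (by convert h5)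
  let E : BT n ≃ Fin (Fintype.card (BT n)) := Fintype.equivFin (BT n)
  let s' : Fin (Fintype.card (BT n)) → Bool := fun x => sB n (E.symm x)
  let c' : Fin (Fintype.card (BT n)) → Fin (Fintype.card (BT n)) → ZMod 2 :=
    fun x y => cB n (E.symm x) (E.symm y)
  have hc' : ∀ x y, c' x y = c' y x := fun x y => cB_comm n _ _
  let HB : Finset (Finset (Fin (Fintype.card (BT n)))) :=
    Finset.univ.filter (fun e => InH s' c' e)
  have hHB : ∀ e, e ∈ HB ↔ InH s' c' e := by
    intro e
    rw [Finset.mem_filter]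
    exact ⟨fun h => h.2, fun h => ⟨Finset.mem_univ _, h⟩⟩
  have hfE : ∀ v, E.symm (E (emb s c v)) = emb s c v := fun v => Equiv.symm_apply_apply _ _
  refine ⟨Fintype.card (BT n), fun x y => s' x = s' y, HB,
    ⟨⟨fun _ => rfl, fun h => h.symm, fun h g => h.trans g⟩, ?_, ?_, ?_⟩,
    ⟨fun v => E (emb s c v), fun x y h => emb_inj s c (E.injective h)⟩, ?_, ?_, ?_⟩
  · intro a b d
    show s' a = s' b ∨ s' b = s' d ∨ s' a = s' d
    generalize s' a = A
    generalize s' b = B
    generalize s' d = D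
    revert A B D
    decide
  · intro e he
    have := tg_four s' c' hc' e ((hHB e).1 he)
    convert this
  · intro S hS h3
    have := tg_five s' c' hc' HB hHB S hS (by convert h3)
    convert this
  · intro x y
    rw [hs]
    show s x = s y ↔ sB n (E.symm (E (emb s c x))) = sB n (E.symm (E (emb s c y)))
    rw [hfE, hfE]
    exact Iff.rfl
  · intro e
    rw [hHA, hHB]
    refine map_iff s c s' c' hc hc' _ false (fun _ => 0) ?_ ?_ e
    · intro x
      show sB n (E.symm (E (emb s c x))) = _
      rw [hfE]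
      simp [sB, emb]
    · intro x y hxy
      show cB n (E.symm (E (emb s c x))) (E.symm (E (emb s c y))) = _
      rw [hfE, hfE, add_zero, add_zero]
      exact chi_add s c hc x y hxy
  · intro S p hp hr hH
    obtain ⟨w, θ, P, hinj, hθs, hθc, hθe⟩ := extend s c hc S p hp
      (fun x hx y hy => by rw [← hs, ← hs]; exact hr x hx y hy)
      (fun e he => by
        rw [← hHA, ← hHA]
        have := hH e he
        convert this)
    have hbij : Function.Bijective θ := Finite.injective_iff_bijective.1 hinj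
    let σ : Fin (Fintype.card (BT n)) ≃ Fin (Fintype.card (BT n)) :=
      (E.symm.trans (Equiv.ofBijective θ hbij)).trans E
    have hσ : ∀ x, E.symm (σ x) = θ (E.symm x) := by
      intro x
      show E.symm (E (θ (E.symm x))) = _
      rw [Equiv.symm_apply_apply]
    refine ⟨σ, ?_, ?_, ?_⟩
    · intro x y
      show sB n (E.symm x) = sB n (E.symm y) ↔ sB n (E.symm (σ x)) = sB n (E.symm (σ y))
      rw [hσ, hσ, hθs, hθs]
      constructor
      · intro h; rw [h]
      · intro h; exact (Bool.xor_right_inj).1 h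
    · intro e
      rw [hHB, hHB]
      refine map_iff s' c' s' c' hc' hc' σ.toEmbedding w (fun x => P (E.symm x)) ?_ ?_ e
      · intro x
        show sB n (E.symm (σ x)) = xor w (sB n (E.symm x))
        rw [hσ, hθs]
      · intro x y hxy
        show cB n (E.symm (σ x)) (E.symm (σ y)) = _
        rw [hσ, hσ]
        exact hθc _ _ hxy
    · intro x hx
      show E (θ (E.symm (E (emb s c x)))) = E (emb s c (p x))
      rw [hfE, hθe x hx]

end Pool.Agent.Q230.TG
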