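import Pool.Agent.Q230.TG.Core

set_option autoImplicit false
open Classical

namespace Pool.Agent.Q230.TG

open Finset

/-- indicator of a four-set being a hyperedge -/
noncomputable def ind {V : Type} (H : Finset (Finset V)) (a b u v : V) : ZMod 2 :=
  if ({a, b, u, v} : Finset V) ∈ H then 1 else 0

theorem ind_swap {V : Type} (H : Finset (Finset V)) (a b u v : V) :
    ind H b a u v = ind H a b u v := by
  unfold ind
  rw [Finset.insert_comm]

theorem ind_flip {V : Type} (H : Finset (Finset V)) (a b u v : V) :
    ind H u v a b = ind H a b u v := by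
  unfold ind
  have : ({u, v, a, b} : Finset V) = {a, b, u, v} := by
    ext x; simp only [Finset.mem_insert, Finset.mem_singleton]; tauto
  rw [this]

theorem ind_deg {V : Type} (H : Finset (Finset V)) (h4 : ∀ e ∈ H, e.card = 4) (a u v : V) :
    ind H a a u v = 0 := by
  unfold ind
  rw [if_neg]
  intro h
  have h1 := h4 _ h
  have h2 : ({a, a, u, v} : Finset V) = {a, u, v} := by
    ext x; simp only [Finset.mem_insert, Finset.mem_singleton]; tauto
  rw [h2] at h1
  have := Finset.card_le_three (a := a) (b := u) (c := v)
  omega

theorem ind_deg2 {V : Type} (H : Finset (Finset V)) (h4 : ∀ e ∈ H, e.card = 4) (a b u : V) :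
    ind H a b u u = 0 := by
  rw [← ind_flip, ind_deg H h4]

theorem ind_cocycle {V : Type} [Fintype V] (r : V → V → Prop) (s : V → Bool)
    (H : Finset (Finset V)) (hrs : ∀ x y, r x y ↔ s x = s y)
    (h4 : ∀ e ∈ H, e.card = 4 ∧ ∀ v ∈ e, (e.filter (fun w => r v w)).card = 2)
    (h5 : ∀ S : Finset V, S.card = 5 →
          (∀ v ∈ S, (S.filter (fun w => r v w)).card ≤ 3) →
          Even (H.filter (fun e => e ⊆ S)).card)
    (b : Bool) (x y z u v : V) (hx : s x = b) (hy : s y = b) (hz : s z = b)
    (hu : s u = !b) (hv : s v = !b) :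
    ind H x y u v + ind H y z u v + ind H x z u v = 0 := by
  have h44 : ∀ e ∈ H, e.card = 4 := fun e he => (h4 e he).1
  by_cases huv : u = v
  · subst huv
    rw [ind_deg2 H h44, ind_deg2 H h44, ind_deg2 H h44]; rfl
  by_cases hxy : x = y
  · subst hxy
    rw [ind_deg H h44, zero_add, two_mul_z]
  by_cases hyz : y = z
  · subst hyz
    rw [ind_deg H h44, add_zero, two_mul_z]
  by_cases hxz : x = z
  · subst hxz
    rw [ind_deg H h44, add_zero, ind_swap, two_mul_z]
  have hne : ∀ p q : V, s p = b → s q = !b → p ≠ q := by
    intro p q h1 h2 h3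
    rw [h3, h2] at h1
    cases b <;> simp at h1
  have hxu := hne x u hx hu
  have hxv := hne x v hx hv
  have hyu := hne y u hy hu
  have hyv := hne y v hy hv
  have hzu := hne z u hz hu
  have hzv := hne z v hz hv
  have n1 : z ∉ ({u, v} : Finset V) := by simp [hzu, hzv]
  have n2 : y ∉ ({z, u, v} : Finset V) := by simp [hyz, hyu, hyv]
  have n3 : x ∉ ({y, z, u, v} : Finset V) := by simp [hxy, hxz, hxu, hxv]
  have hcard : ({x, y, z, u, v} : Finset V).card = 5 := by
    rw [Finset.card_insert_of_notMem n3, Finset.card_insert_of_notMem n2,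
      Finset.card_insert_of_notMem n1, Finset.card_pair huv]
  have hb : (b = !b) ↔ False := by cases b <;> simp
  have hb' : ((!b) = b) ↔ False := by cases b <;> simp
  have hle : ∀ w ∈ ({x, y, z, u, v} : Finset V),
      (({x, y, z, u, v} : Finset V).filter (fun t => r w t)).card ≤ 3 := by
    intro w _
    by_cases hw : s w = b
    · have : (({x, y, z, u, v} : Finset V).filter (fun t => r w t)) ⊆ {x, y, z} := by
        intro t ht
        rw [Finset.mem_filter, hrs, hw] at ht
        simp only [Finset.mem_insert, Finset.mem_singleton] at ht ⊢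
        rcases ht with ⟨h | h | h | h | h, h6⟩
        · exact Or.inl h
        · exact Or.inr (Or.inl h)
        · exact Or.inr (Or.inr h)
        · rw [h, hu] at h6; exact (hb.1 h6).elim
        · rw [h, hv] at h6; exact (hb.1 h6).elim
      exact le_trans (Finset.card_le_card this) Finset.card_le_three
    · have hw' : s w = !b := by
        cases hsw : s w <;> cases b <;> simp_all
      have : (({x, y, z, u, v} : Finset V).filter (fun t => r w t)) ⊆ {u, v} := by
        intro t ht
        rw [Finset.mem_filter, hrs, hw'] at ht
        simp only [Finset.mem_insert, Finset.mem_singleton] at ht ⊢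
        rcases ht with ⟨h | h | h | h | h, h6⟩
        · rw [h, hx] at h6; exact (hb'.1 h6).elim
        · rw [h, hy] at h6; exact (hb'.1 h6).elim
        · rw [h, hz] at h6; exact (hb'.1 h6).elim
        · exact Or.inl h
        · exact Or.inr h
      exact le_trans (Finset.card_le_card this) (le_trans Finset.card_le_two (by norm_num))
  have heven := h5 _ hcard hle
  have hz0 := card_four H h44 _ hcard
  rw [(ZMod.natCast_eq_zero_iff_even).2 heven] at hz0
  rw [Finset.sum_insert n3, Finset.sum_insert n2, Finset.sum_insert n1,
    Finset.sum_insert (by simp [huv]), Finset.sum_singleton] at hz0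
  have e1 : ({x, y, z, u, v} : Finset V).erase x = {y, z, u, v} := by
    rw [Finset.erase_insert n3]
  have e2 : ({x, y, z, u, v} : Finset V).erase y = {x, z, u, v} := by
    rw [Finset.erase_insert_of_ne hxy, Finset.erase_insert n2]
  have e3 : ({x, y, z, u, v} : Finset V).erase z = {x, y, u, v} := by
    rw [Finset.erase_insert_of_ne hxz, Finset.erase_insert_of_ne hyz, Finset.erase_insert n1]
  have hout : ∀ t : V, s t = !b → ({x, y, z, u, v} : Finset V).erase t ∉ H := by
    intro t ht hm
    have hxt := hne x t hx ht
    have hyt := hne y t hy ht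
    have hzt := hne z t hz ht
    have hxm : x ∈ ({x, y, z, u, v} : Finset V).erase t := by
      simp [hxt]
    have := (h4 _ hm).2 x hxm
    have hsub : ({x, y, z} : Finset V) ⊆
        (({x, y, z, u, v} : Finset V).erase t).filter (fun w => r x w) := by
      intro q hq
      rw [Finset.mem_filter, Finset.mem_erase, hrs, hx]
      simp only [Finset.mem_insert, Finset.mem_singleton] at hq ⊢
      rcases hq with h | h | h
      · subst h; exact ⟨⟨hxt, Or.inl rfl⟩, hx.symm⟩
      · subst h; exact ⟨⟨hyt, Or.inr (Or.inl rfl)⟩, hy.symm⟩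
      · subst h; exact ⟨⟨hzt, Or.inr (Or.inr (Or.inl rfl))⟩, hz.symm⟩
    have hc3 : ({x, y, z} : Finset V).card = 3 := by
      rw [Finset.card_insert_of_notMem (by simp [hxy, hxz]), Finset.card_pair hyz]
    have := Finset.card_le_card hsub
    omega
  rw [if_neg (hout u hu), if_neg (hout v hv), e1, e2, e3] at hz0
  unfold ind
  rw [add_zero, add_zero] at hz0
  refine Eq.trans ?_ hz0.symm
  ring

theorem rep {V : Type} [Fintype V] (r : V → V → Prop) (H : Finset (Finset V))
    (he : Equivalence r) (h2 : ∀ a b c, r a b ∨ r b c ∨ r a c)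
    (h4 : ∀ e ∈ H, e.card = 4 ∧ ∀ v ∈ e, (e.filter (fun w => r v w)).card = 2)
    (h5 : ∀ S : Finset V, S.card = 5 →
          (∀ v ∈ S, (S.filter (fun w => r v w)).card ≤ 3) →
          Even (H.filter (fun e => e ⊆ S)).card) :
    ∃ (s : V → Bool) (c : V → V → ZMod 2), (∀ x y, r x y ↔ s x = s y) ∧
      (∀ x y, c x y = c y x) ∧ ∀ e, e ∈ H ↔ InH s c e := by
  obtain ⟨s, hs⟩ : ∃ s : V → Bool, ∀ x y, r x y ↔ s x = s y := by
    by_cases hne : Nonempty V
    · obtain ⟨v0⟩ := hne
      refine ⟨fun x => decide (¬ r v0 x), ?_⟩
      intro x y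
      rw [decide_eq_decide]
      constructor
      · intro hxy
        rw [not_iff_not]
        exact ⟨fun h => he.trans h hxy, fun h => he.trans h (he.symm hxy)⟩
      · intro h
        by_cases hx : r v0 x
        · have hy : r v0 y := by
            by_contra hy
            exact (h.2 hy) hx
          exact he.trans (he.symm hx) hy
        · have hy := h.1 hx
          rcases h2 v0 x y with h | h | h
          · exact (hx h).elim
          · exact h
          · exact (hy h).elim
    · exact ⟨fun _ => false, fun x => (hne ⟨x⟩).elim⟩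
  -- side cardinalities of members
  have hsides : ∀ e ∈ H, (sd s false e).card = 2 ∧ (sd s true e).card = 2 := by
    intro e hm
    obtain ⟨h41, h42⟩ := h4 e hm
    obtain ⟨v, hv⟩ : e.Nonempty := by
      rw [← Finset.card_pos]; omega
    have h1 := h42 v hv
    have h3 : (sd s (s v) e).card = 2 := by
      rw [← h1]
      congr 1
      unfold sd
      apply Finset.filter_congr
      intro w _
      rw [hs]
      exact eq_comm
    have h6 := card_sd s false e
    simp only [Bool.not_false] at h6
    cases hsv : s v
    · rw [hsv] at h3; exact ⟨h3, by omega⟩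
    · rw [hsv] at h3; exact ⟨by omega, h3⟩
  by_cases hb : (∃ x0, s x0 = false) ∧ (∃ y0, s y0 = true)
  · obtain ⟨⟨x0, hx0⟩, ⟨y0, hy0⟩⟩ := hb
    let c0 : V → V → ZMod 2 := fun x y =>
      if s x = false ∧ s y = true then ind H x0 x y0 y else 0
    have hc0 : ∀ x y, s x = false → s y = true → c0 x y = ind H x0 x y0 y := by
      intro x y h1 h2
      exact if_pos ⟨h1, h2⟩
    have hc1 : ∀ x y, s x = false → s y = true → c0 y x = 0 := by
      intro x y h1 h2
      apply if_neg
      rw [h2]
      simp
    have hmain : ∀ a b u v, s a = false → s b = false → s u = true → s v = true →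
        (c0 a u + c0 u a) + (c0 a v + c0 v a) + ((c0 b u + c0 u b) + (c0 b v + c0 v b)) =
          ind H a b u v := by
      intro a b u v ha hb hu hv
      rw [hc0 a u ha hu, hc0 a v ha hv, hc0 b u hb hu, hc0 b v hb hv,
        hc1 a u ha hu, hc1 a v ha hv, hc1 b u hb hu, hc1 b v hb hv]
      have k1 := ind_cocycle r s H hs h4 h5 false x0 a b u v hx0 ha hb hu hv
      have k2 := ind_cocycle r s H hs h4 h5 true y0 u v x0 a hy0 hu hv hx0 ha
      have k3 := ind_cocycle r s H hs h4 h5 true y0 u v x0 b hy0 hu hv hx0 hb
      rw [ind_flip H x0 a y0 u, ind_flip H x0 a u v, ind_flip H x0 a y0 v] at k2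
      rw [ind_flip H x0 b y0 u, ind_flip H x0 b u v, ind_flip H x0 b y0 v] at k3
      generalize ind H x0 a u v = A at *
      generalize ind H x0 b u v = B at *
      generalize ind H a b u v = C at *
      generalize ind H x0 a y0 u = D at *
      generalize ind H x0 a y0 v = E at *
      generalize ind H x0 b y0 u = F at *
      generalize ind H x0 b y0 v = G at *
      revert k1 k2 k3
      revert A B C D E F G
      decide
    refine ⟨s, fun x y => c0 x y + c0 y x, hs, fun x y => add_comm _ _, ?_⟩
    have hval : ∀ e : Finset V, (sd s false e).card = 2 → (sd s true e).card = 2 →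
        (e ∈ H ↔ tot s (fun x y => c0 x y + c0 y x) false e = 1) := by
      intro e h6 h7
      obtain ⟨a, b, hab, hab'⟩ := Finset.card_eq_two.1 h6
      obtain ⟨u, v, huv, huv'⟩ := Finset.card_eq_two.1 h7
      have hma : a ∈ sd s false e := by rw [hab']; simp
      have hmb : b ∈ sd s false e := by rw [hab']; simp
      have hmu : u ∈ sd s true e := by rw [huv']; simp
      have hmv : v ∈ sd s true e := by rw [huv']; simp
      have hma' := (Finset.mem_filter.1 hma)
      have hmb' := (Finset.mem_filter.1 hmb)
      have hmu' := (Finset.mem_filter.1 hmu)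
      have hmv' := (Finset.mem_filter.1 hmv)
      have hee : e = {a, b, u, v} := by
        ext t
        simp only [Finset.mem_insert, Finset.mem_singleton]
        constructor
        · intro ht
          cases hst : s t
          · have : t ∈ sd s false e := Finset.mem_filter.2 ⟨ht, hst⟩
            rw [hab'] at this
            simp only [Finset.mem_insert, Finset.mem_singleton] at this
            tauto
          · have : t ∈ sd s true e := Finset.mem_filter.2 ⟨ht, hst⟩
            rw [huv'] at this
            simp only [Finset.mem_insert, Finset.mem_singleton] at this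
            tauto
        · rintro (h | h | h | h)
          · rw [h]; exact hma'.1
          · rw [h]; exact hmb'.1
          · rw [h]; exact hmu'.1
          · rw [h]; exact hmv'.1
      have htot : tot s (fun x y => c0 x y + c0 y x) false e = ind H a b u v := by
        rw [← hmain a b u v hma'.2 hmb'.2 hmu'.2 hmv'.2]
        unfold tot
        rw [Bool.not_false, hab', huv', Finset.sum_pair hab, Finset.sum_pair huv,
          Finset.sum_pair huv]
      rw [htot]
      unfold ind
      rw [← hee]
      by_cases hm : e ∈ H
      · simp [hm]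
      · simp [hm]
    intro e
    constructor
    · intro hm
      obtain ⟨h6, h7⟩ := hsides e hm
      exact ⟨h6, h7, (hval e h6 h7).1 hm⟩
    · rintro ⟨h6, h7, h8⟩
      exact (hval e h6 h7).2 h8
  · refine ⟨s, fun _ _ => 0, hs, fun _ _ => rfl, ?_⟩
    intro e
    constructor
    · intro hm
      exfalso
      obtain ⟨h6, h7⟩ := hsides e hm
      apply hb
      constructor
      · obtain ⟨x, hx⟩ : (sd s false e).Nonempty := by rw [← Finset.card_pos]; omega
        exact ⟨x, (Finset.mem_filter.1 hx).2⟩
      · obtain ⟨x, hx⟩ : (sd s true e).Nonempty := by rw [← Finset.card_pos]; omega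
        exact ⟨x, (Finset.mem_filter.1 hx).2⟩
    · rintro ⟨_, _, h8⟩
      exfalso
      unfold tot at h8
      simp at h8

end Pool.Agent.Q230.TG
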